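import Pool.Agent.helper74.SchOrder

set_option autoImplicit false

namespace Pool.Agent.Scheepers

open Cardinal

/-- Codes for sets depending on finitely many coordinates. -/
abbrev Code := Σ b : ℕ, Set (Fin b → Bool)

/-- The set coded by `c`. -/
def dec (c : Code) : Set (ℕ → Bool) := {z | (fun i : Fin c.1 => z i) ∈ c.2}

theorem supp_dec (c : Code) : Supp c.1 (dec c) := by
  intro u v huv hu
  have : (fun i : Fin c.1 => v i) = (fun i : Fin c.1 => u i) := by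
    funext i
    exact (huv i i.2).symm
  show (fun i : Fin c.1 => v i) ∈ c.2
  rw [this]
  exact hu

theorem exists_code {b : ℕ} {W : Set (ℕ → Bool)} (hW : Supp b W) : ∃ c : Code, dec c = W := by
  refine ⟨⟨b, {s | (fun e => if h : e < b then s ⟨e, h⟩ else false) ∈ W}⟩, ?_⟩
  ext z
  constructor
  · intro hz
    refine hW _ z ?_ hz
    intro e he
    simp [he]
  · intro hz
    refine hW z _ ?_ hz
    intro e he
    simp [he]

/-- A point `z` refutes convergence of the matrix `W`. -/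
def Kills (W : ℕ → ℕ → Set (ℕ → Bool)) (z : ℕ → Bool) : Prop :=
  ∃ n, ∀ k0, ∃ k, k0 ≤ k ∧ z ∈ W n k

/-- The selection `κ` works at `z`. -/
def Ev (W : ℕ → ℕ → Set (ℕ → Bool)) (κ : ℕ → ℕ) (z : ℕ → Bool) : Prop :=
  ∃ n0, ∀ n, n0 ≤ n → z ∉ W n (κ n)

/-- Tasks. -/
abbrev Task := (ℕ → ℕ → Code) × (ℕ → ℕ)

theorem mk_task : #Task ≤ 𝔠 := by
  have h1 : #Code ≤ ℵ₀ := Cardinal.mk_le_aleph0
  have h2 : #(ℕ → ℕ → Code) ≤ 𝔠 := by
    have h3 : #(ℕ → Code) ≤ 𝔠 := by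
      rw [← Cardinal.power_def, Cardinal.mk_nat]
      calc #Code ^ ℵ₀ ≤ ℵ₀ ^ ℵ₀ := Cardinal.power_le_power_right h1
        _ = 𝔠 := Cardinal.aleph0_power_aleph0
    rw [← Cardinal.power_def, Cardinal.mk_nat]
    calc #(ℕ → Code) ^ ℵ₀ ≤ 𝔠 ^ ℵ₀ := Cardinal.power_le_power_right h3
      _ = 𝔠 := Cardinal.continuum_power_aleph0
  have h4 : #(ℕ → ℕ) ≤ 𝔠 := by
    rw [← Cardinal.power_def, Cardinal.mk_nat]
    exact le_of_eq Cardinal.aleph0_power_aleph0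
  rw [Cardinal.mk_prod, Cardinal.lift_id, Cardinal.lift_id]
  calc #(ℕ → ℕ → Code) * #(ℕ → ℕ) ≤ 𝔠 * 𝔠 := mul_le_mul' h2 h4
    _ = 𝔠 := Cardinal.continuum_mul_self

section

variable {ι : Type} (r : ι → ι → Prop) (W : ι → ℕ → ℕ → Set (ℕ → Bool)) (h : ι → ℕ → ℕ)

/-- states of the recursion -/
abbrev St := (ℕ → Bool) × (ℕ → Bool) × Cond

/-- the points known at a stage -/
def Pt (i : ι) (f : (j : ι) → r j i → St) (s : St) (z : ℕ → Bool) : Prop :=
  z = s.1 ∨ z = s.2.1 ∨ ∃ j hj, z = (f j hj).1 ∨ z = (f j hj).2.1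

/-- validity of a history -/
def Hist (i : ι) (f : (j : ι) → r j i → St) : Prop :=
  ∀ j hj j' hj', r j j' → (f j' hj').2.2.le (f j hj).2.2

/-- requirement of a step -/
def Step (i : ι) (f : (j : ι) → r j i → St) (s : St) : Prop :=
  (∀ j hj, s.2.2.le (f j hj).2.2) ∧
  (∀ j hj, s.1 ∈ (f j hj).2.2.star ∧ s.2.1 ∈ (f j hj).2.2.star) ∧
  s.1 ∈ P2 ∧ s.2.1 ∈ P2 ∧ (∀ n, s.1 ∈ F (n, h i n)) ∧
  ((∃ z, Pt r i f s z ∧ Kills (W i) z) ∨
    ∃ κ, (∀ z ∈ s.2.2.star, Ev (W i) κ z) ∧ ∀ z, Pt r i f s z → Ev (W i) κ z)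

theorem step_exists [IsWellOrder ι r]
    (hchain : ∀ (κ : Type) (p : κ → Cond), #κ < 𝔠 → Nonempty κ →
      (∀ i j, (p i).le (p j) ∨ (p j).le (p i)) → ∃ q : Cond, ∀ i, q.le (p i))
    (hfus : ∀ (κ : Type) (p : Cond) (V : ℕ → ℕ → Set (ℕ → Bool)) (b : ℕ → ℕ → ℕ),
      #κ < 𝔠 → (∀ n k, Supp (b n k) (V n k)) →
      (∀ n, ∀ z ∈ p.star, z ∈ P2 → ∃ k0, ∀ k, k0 ≤ k → z ∉ V n k) →
      ∀ (c : κ → (ℕ → Bool)), (∀ i n, ∃ k0, ∀ k, k0 ≤ k → c i ∉ V n k) →
      ∃ q : Cond, q.le p ∧ ∃ s : ℕ → ℕ, (∀ z ∈ q.star, Ev V s z) ∧ ∀ i, Ev V s (c i))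
    (b : ι → ℕ → ℕ → ℕ) (hW : ∀ i n k, Supp (b i n k) (W i n k))
    (i : ι) (hi : #{j // r j i} < 𝔠) (f : (j : ι) → r j i → St) (hf : Hist r i f) :
    ∃ s, Step r W h i f s := by
  classical
  -- lower bound of the history
  obtain ⟨q0, hq0⟩ : ∃ q0 : Cond, ∀ j hj, q0.le (f j hj).2.2 := by
    rcases isEmpty_or_nonempty {j // r j i} with he | he
    · obtain ⟨q⟩ := Cond.nonempty
      exact ⟨q, fun j hj => (he.false ⟨j, hj⟩).elim⟩
    · obtain ⟨q, hq⟩ := hchain {j // r j i} (fun j => (f j.1 j.2).2.2) hi he (by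
        intro j j'
        rcases trichotomous_of r j.1 j'.1 with h1 | h1 | h1
        · exact Or.inr (hf _ _ _ _ h1)
        · have : j = j' := Subtype.ext h1
          subst this
          exact Or.inl (Cond.le_refl _)
        · exact Or.inl (hf _ _ _ _ h1))
      exact ⟨q, fun j hj => hq ⟨j, hj⟩⟩
  obtain ⟨x, hx1, hx2, hx3⟩ := q0.exists_point (h i)
  by_cases hk : ∃ y ∈ q0.star, y ∈ P2 ∧ Kills (W i) y
  · obtain ⟨y, hy1, hy2, hy3⟩ := hk
    refine ⟨(x, y, q0), hq0, fun j hj => ⟨Cond.star_sub (hq0 j hj) hx1,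
      Cond.star_sub (hq0 j hj) hy1⟩, hx2, hy2, hx3, Or.inl ⟨y, Or.inr (Or.inl rfl), hy3⟩⟩
  · by_cases hk2 : ∃ z, Pt r i f (x, x, q0) z ∧ Kills (W i) z
    · exact ⟨(x, x, q0), hq0, fun j hj => ⟨Cond.star_sub (hq0 j hj) hx1,
        Cond.star_sub (hq0 j hj) hx1⟩, hx2, hx2, hx3, Or.inl hk2⟩
    · have hnk : ∀ z, ¬ Kills (W i) z → ∀ n, ∃ k0, ∀ k, k0 ≤ k → z ∉ W i n k := by
        intro z hz n
        by_contra hcon
        push Not at hcon
        exact hz ⟨n, fun k0 => hcon k0⟩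
      let c : Option ({j // r j i} × Bool) → (ℕ → Bool) := fun o => match o with
        | none => x
        | some (j, true) => (f j.1 j.2).1
        | some (j, false) => (f j.1 j.2).2.1
      have hcard : #(Option ({j // r j i} × Bool)) < 𝔠 := by
        rw [Cardinal.mk_option, Cardinal.mk_prod, Cardinal.lift_id, Cardinal.lift_id]
        refine Cardinal.add_lt_of_lt Cardinal.aleph0_le_continuum ?_
          (lt_of_lt_of_le Cardinal.one_lt_aleph0 Cardinal.aleph0_le_continuum)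
        refine Cardinal.mul_lt_of_lt Cardinal.aleph0_le_continuum hi ?_
        exact lt_of_lt_of_le (Cardinal.lt_aleph0_of_finite _) Cardinal.aleph0_le_continuum
      have hc : ∀ o, Pt r i f (x, x, q0) (c o) := by
        intro o
        rcases o with _ | ⟨j, _ | _⟩
        · exact Or.inl rfl
        · exact Or.inr (Or.inr ⟨j.1, j.2, Or.inr rfl⟩)
        · exact Or.inr (Or.inr ⟨j.1, j.2, Or.inl rfl⟩)
      obtain ⟨q, hq, κ, hκ1, hκ2⟩ := hfus _ q0 (W i) (b i) hcard (hW i)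
        (fun n z hz hz2 => hnk z (fun hzk => hk ⟨z, hz, hz2, hzk⟩) n) c
        (fun o n => hnk (c o) (fun hzk => hk2 ⟨_, hc o, hzk⟩) n)
      refine ⟨(x, x, q), fun j hj => Cond.le_trans hq (hq0 j hj),
        fun j hj => ⟨Cond.star_sub (hq0 j hj) hx1, Cond.star_sub (hq0 j hj) hx1⟩, hx2, hx2, hx3,
        Or.inr ⟨κ, hκ1, ?_⟩⟩
      rintro z (hz | hz | ⟨j, hj, hz | hz⟩)
      · rw [hz]; exact hκ2 none
      · rw [hz]; exact hκ2 none
      · rw [hz]; exact hκ2 (some (⟨j, hj⟩, true))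
      · rw [hz]; exact hκ2 (some (⟨j, hj⟩, false))

/-- Transfinite recursion. -/
theorem rec_exists [IsWellOrder ι r]
    (hstep : ∀ i (f : (j : ι) → r j i → St), Hist r i f → ∃ s, Step r W h i f s) :
    ∃ G : ι → St, ∀ i, Step r W h i (fun j _ => G j) (G i) := by
  classical
  have wf : WellFounded r := IsWellFounded.wf
  obtain ⟨q⟩ := Cond.nonempty
  let body : (i : ι) → ((j : ι) → r j i → St) → St := fun i f =>
    if hf : Hist r i f then Classical.choose (hstep i f hf) else (fun _ => false, fun _ => false, q)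
  let G : ι → St := wf.fix body
  have hG : ∀ i, G i = body i (fun j _ => G j) := fun i => wf.fix_eq body i
  refine ⟨G, fun i => ?_⟩
  induction i using wf.induction with
  | _ i ih =>
    have hh : Hist r i (fun j _ => G j) := by
      intro j hj j' hj' hjj'
      exact (ih j' hj').1 j hjj'
    rw [hG i]
    simp only [body, hh, dif_pos]
    exact Classical.choose_spec (hstep i _ hh)

end

/-- The main existence theorem, from the two fusion principles. -/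
theorem exists_set
    (hchain : ∀ (κ : Type) (p : κ → Cond), #κ < 𝔠 → Nonempty κ →
      (∀ i j, (p i).le (p j) ∨ (p j).le (p i)) → ∃ q : Cond, ∀ i, q.le (p i))
    (hfus : ∀ (κ : Type) (p : Cond) (V : ℕ → ℕ → Set (ℕ → Bool)) (b : ℕ → ℕ → ℕ),
      #κ < 𝔠 → (∀ n k, Supp (b n k) (V n k)) →
      (∀ n, ∀ z ∈ p.star, z ∈ P2 → ∃ k0, ∀ k, k0 ≤ k → z ∉ V n k) →
      ∀ (c : κ → (ℕ → Bool)), (∀ i n, ∃ k0, ∀ k, k0 ≤ k → c i ∉ V n k) →
      ∃ q : Cond, q.le p ∧ ∃ s : ℕ → ℕ, (∀ z ∈ q.star, Ev V s z) ∧ ∀ i, Ev V s (c i)) :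
    ∃ X : Set (ℕ → Bool), X ⊆ P2 ∧ (∀ h : ℕ → ℕ, ∃ x ∈ X, ∀ n, x ∈ F (n, h n)) ∧
      ∀ (W : ℕ → ℕ → Set (ℕ → Bool)) (b : ℕ → ℕ → ℕ), (∀ n k, Supp (b n k) (W n k)) →
        (∀ n, ∀ x ∈ X, ∃ k0, ∀ k, k0 ≤ k → x ∉ W n k) →
        ∃ κ : ℕ → ℕ, ∀ x ∈ X, ∃ n0, ∀ n, n0 ≤ n → x ∉ W n (κ n) := by
  classical
  obtain ⟨r, wo, hr⟩ := Cardinal.exists_ord_eq Task
  have hsmall : ∀ i : Task, #{j // r j i} < 𝔠 := by
    intro i
    have h1 := Cardinal.card_typein_lt i hr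
    rw [Ordinal.card_typein] at h1
    exact lt_of_lt_of_le h1 mk_task
  let W : Task → ℕ → ℕ → Set (ℕ → Bool) := fun i n k => dec (i.1 n k)
  let h : Task → ℕ → ℕ := fun i => i.2
  obtain ⟨G, hG⟩ := rec_exists r W h (fun i f hf => step_exists r W h hchain hfus
    (fun i n k => (i.1 n k).1) (fun i n k => supp_dec _) i (hsmall i) f hf)
  let X : Set (ℕ → Bool) := {z | ∃ i, z = (G i).1 ∨ z = (G i).2.1}
  refine ⟨X, ?_, ?_, ?_⟩
  · rintro z ⟨i, hz | hz⟩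
    · rw [hz]; exact (hG i).2.2.1
    · rw [hz]; exact (hG i).2.2.2.1
  · intro g
    let i : Task := (fun _ _ => ⟨0, ∅⟩, g)
    exact ⟨(G i).1, ⟨i, Or.inl rfl⟩, (hG i).2.2.2.2.1⟩
  · intro V b hV hconv
    choose c hc using fun n k => exists_code (hV n k)
    let i : Task := (c, fun _ => 0)
    have hWi : W i = V := by
      funext n k
      exact hc n k
    have hnk : ∀ z ∈ X, ¬ Kills V z := by
      rintro z hz ⟨n, hn⟩
      obtain ⟨k0, hk0⟩ := hconv n z hz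
      obtain ⟨k, hk1, hk2⟩ := hn k0
      exact hk0 k hk1 hk2
    obtain ⟨h1, h2, h3, h4, h5, h6⟩ := hG i
    rw [hWi] at h6
    rcases h6 with ⟨z, hz, hzk⟩ | ⟨κ, hκ1, hκ2⟩
    · exfalso
      refine hnk z ?_ hzk
      rcases hz with hz | hz | ⟨j, _, hz⟩
      · exact ⟨i, Or.inl hz⟩
      · exact ⟨i, Or.inr hz⟩
      · exact ⟨j, hz⟩
    · refine ⟨κ, ?_⟩
      rintro z ⟨j, hz⟩
      rcases trichotomous_of r j i with hji | hji | hji
      · exact hκ2 z (Or.inr (Or.inr ⟨j, hji, hz⟩))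
      · subst hji
        rcases hz with hz | hz
        · exact hκ2 z (Or.inl hz)
        · exact hκ2 z (Or.inr (Or.inl hz))
      · have := (hG j).2.1 i hji
        rcases hz with hz | hz
        · rw [hz]; exact hκ1 _ this.1
        · rw [hz]; exact hκ1 _ this.2

end Pool.Agent.Scheepers
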