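import Mathlib

set_option autoImplicit false

namespace Pool.Agent.Scheepers

/-- Position (a pair of naturals) attached to a coordinate; each pair occurs infinitely often. -/
def pos (e : ℕ) : ℕ × ℕ := Nat.unpair (Nat.unpair e).1

theorem exists_pos_ge (w : ℕ × ℕ) (b : ℕ) : ∃ e, b ≤ e ∧ pos e = w := by
  refine ⟨Nat.pair (Nat.pair w.1 w.2) b, Nat.right_le_pair _ _, ?_⟩
  simp [pos]

/-- `t` has at most `N` points in each column. -/
def Val (N : ℕ) (t : Set (ℕ × ℕ)) : Prop :=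
  ∀ n, ∀ s : Finset ℕ, (∀ m ∈ s, (n, m) ∈ t) → s.card ≤ N

theorem Val.mono {N M : ℕ} {t : Set (ℕ × ℕ)} (h : Val N t) (hNM : N ≤ M) : Val M t :=
  fun n s hs => (h n s hs).trans hNM

theorem Val.finite {N : ℕ} {t : Set (ℕ × ℕ)} (h : Val N t) (n : ℕ) : {m | (n, m) ∈ t}.Finite := by
  by_contra hinf
  obtain ⟨s, hs, hc⟩ := Set.Infinite.exists_subset_card_eq hinf (N + 1)
  have := h n s (fun m hm => hs hm)
  omega

theorem Val.union {N M : ℕ} {t t' : Set (ℕ × ℕ)} (h : Val N t) (h' : Val M t') :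
    Val (N + M) (t ∪ t') := by
  classical
  intro n s hs
  have h1 : (s.filter (fun m => (n, m) ∈ t)).card ≤ N :=
    h n _ (fun m hm => (Finset.mem_filter.1 hm).2)
  have h2 : (s.filter (fun m => ¬ (n, m) ∈ t)).card ≤ M := by
    refine h' n _ (fun m hm => ?_)
    rw [Finset.mem_filter] at hm
    rcases hs m hm.1 with h3 | h3
    · exact absurd h3 hm.2
    · exact h3
  have h3 := Finset.card_filter_add_card_filter_not (s := s) (fun m => (n, m) ∈ t)
  omega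

theorem Val.exists_not_mem {N : ℕ} {t : Set (ℕ × ℕ)} (h : Val N t) :
    ∃ m, m ≤ N ∧ ((0 : ℕ), m) ∉ t := by
  by_contra hcon
  push Not at hcon
  have := h 0 (Finset.range (N + 1)) (fun m hm => hcon m (by
    rw [Finset.mem_range] at hm; omega))
  rw [Finset.card_range] at this
  omega

/-- `N`-largeness of a set of patterns on the block `[l, r)`. -/
def Large (N : ℕ) (B : Set (ℕ → Bool)) (l r : ℕ) : Prop :=
  ∀ t : Set (ℕ × ℕ), Val N t → ∀ w : ℕ × ℕ, w.1 ≤ N → w.2 ≤ N → w ∉ t →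
    ∃ u ∈ B, (∀ e, l ≤ e → e < r → pos e ∈ t → u e = false) ∧
      ∃ e, l ≤ e ∧ e < r ∧ pos e = w ∧ u e = true

theorem Large.mono {N M : ℕ} {B : Set (ℕ → Bool)} {l r : ℕ} (h : Large M B l r) (hNM : N ≤ M) :
    Large N B l r :=
  fun t ht w h1 h2 hw => h t (ht.mono hNM) w (h1.trans hNM) (h2.trans hNM) hw

/-- Conditions: block sequences of patterns. -/
structure Cond where
  a : ℕ → ℕ
  A : ℕ → Set (ℕ → Bool)
  mono : StrictMono a
  loc : ∀ j u v, (∀ e, a j ≤ e → e < a (j + 1) → u e = v e) → u ∈ A j → v ∈ A j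
  large : ∀ N, ∃ J, ∀ j, J ≤ j → Large N (A j) (a j) (a (j + 1))

namespace Cond

/-- The sigma-compact set of a condition. -/
def star (p : Cond) : Set (ℕ → Bool) := {z | ∃ J, ∀ j, J ≤ j → z ∈ p.A j}

/-- Patterns allowed between two cut points. -/
def R (p : Cond) (d d' : ℕ) : Set (ℕ → Bool) :=
  {z | ∀ j, d ≤ p.a j → p.a (j + 1) ≤ d' → z ∈ p.A j}

/-- `q` refines `p` from some point on. -/
def le (q p : Cond) : Prop :=
  ∃ M, ∀ i, M ≤ q.a i → q.a i ∈ Set.range p.a ∧ q.A i ⊆ p.R (q.a i) (q.a (i + 1))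

theorem exists_block (p : Cond) {J e : ℕ} (he : p.a J ≤ e) :
    ∃ j, J ≤ j ∧ p.a j ≤ e ∧ e < p.a (j + 1) := by
  have hex : ∃ j, e < p.a (j + 1) := ⟨e, lt_of_lt_of_le (Nat.lt_succ_self e) (p.mono.id_le (e + 1))⟩
  classical
  have h1 := Nat.find_spec hex
  have h2 : ∀ m < Nat.find hex, p.a (m + 1) ≤ e := fun m hm => not_lt.1 (Nat.find_min hex hm)
  have hJ : J ≤ Nat.find hex := by
    by_contra hlt
    push Not at hlt
    have : p.a (Nat.find hex + 1) ≤ p.a J := p.mono.monotone hlt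
    omega
  refine ⟨Nat.find hex, hJ, ?_, h1⟩
  rcases Nat.eq_zero_or_pos (Nat.find hex) with h0 | h0
  · have : J = 0 := by omega
    rw [h0]
    rw [this] at he
    exact he
  · have := h2 (Nat.find hex - 1) (by omega)
    rwa [Nat.sub_add_cancel h0] at this

theorem block_unique (p : Cond) {i j e : ℕ} (hi : p.a i ≤ e) (hi' : e < p.a (i + 1))
    (hj : p.a j ≤ e) (hj' : e < p.a (j + 1)) : i = j := by
  rcases lt_trichotomy i j with h | h | h
  · have : p.a (i + 1) ≤ p.a j := p.mono.monotone h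
    omega
  · exact h
  · have : p.a (j + 1) ≤ p.a i := p.mono.monotone h
    omega

/-- Gluing patterns block by block. -/
theorem glue (p : Cond) (J : ℕ) (s : ℕ → Bool) (u : ℕ → ℕ → Bool) :
    ∃ z : ℕ → Bool, (∀ e, e < p.a J → z e = s e) ∧
      ∀ j, J ≤ j → ∀ e, p.a j ≤ e → e < p.a (j + 1) → z e = u j e := by
  classical
  have hex : ∀ e, ∃ j, p.a J ≤ e → (J ≤ j ∧ p.a j ≤ e ∧ e < p.a (j + 1)) := by
    intro e
    by_cases he : p.a J ≤ e
    · obtain ⟨j, hj⟩ := p.exists_block he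
      exact ⟨j, fun _ => hj⟩
    · exact ⟨0, fun h => absurd h he⟩
  choose g hg using hex
  refine ⟨fun e => if e < p.a J then s e else u (g e) e, fun e he => by simp [he], ?_⟩
  intro j hj e he he'
  have hJe : p.a J ≤ e := (p.mono.monotone hj).trans he
  have h1 := hg e hJe
  have h2 : g e = j := p.block_unique h1.2.1 h1.2.2 he he'
  simp [not_lt.2 hJe, h2]

/-- The general construction of points of `star p`. -/
theorem build (p : Cond) (N J : ℕ) (hJ : ∀ j, J ≤ j → Large N (p.A j) (p.a j) (p.a (j + 1)))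
    (T : ℕ → Set (ℕ × ℕ)) (hT : ∀ j, J ≤ j → Val N (T j)) (x : ℕ → ℕ × ℕ) (s : ℕ → Bool) :
    ∃ z : ℕ → Bool, (∀ e, e < p.a J → z e = s e) ∧ ∀ j, J ≤ j → z ∈ p.A j ∧
      (∀ e, p.a j ≤ e → e < p.a (j + 1) → pos e ∈ T j → z e = false) ∧
      (∀ M, N ≤ M → (x j).1 ≤ M → (x j).2 ≤ M → x j ∉ T j →
        Large M (p.A j) (p.a j) (p.a (j + 1)) →
        ∃ e, p.a j ≤ e ∧ e < p.a (j + 1) ∧ pos e = x j ∧ z e = true) := by
  classical
  have hu : ∀ j, ∃ u : ℕ → Bool, J ≤ j → (u ∈ p.A j ∧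
      (∀ e, p.a j ≤ e → e < p.a (j + 1) → pos e ∈ T j → u e = false) ∧
      (∀ M, N ≤ M → (x j).1 ≤ M → (x j).2 ≤ M → x j ∉ T j →
        Large M (p.A j) (p.a j) (p.a (j + 1)) →
        ∃ e, p.a j ≤ e ∧ e < p.a (j + 1) ∧ pos e = x j ∧ u e = true)) := by
    intro j
    by_cases hj : J ≤ j
    · by_cases hM : ∃ M, N ≤ M ∧ (x j).1 ≤ M ∧ (x j).2 ≤ M ∧ x j ∉ T j ∧
        Large M (p.A j) (p.a j) (p.a (j + 1))
      · obtain ⟨M, h1, h2, h3, h4, h5⟩ := hM
        obtain ⟨u, hu1, hu2, hu3⟩ := h5 (T j) ((hT j hj).mono h1) (x j) h2 h3 h4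
        exact ⟨u, fun _ => ⟨hu1, hu2, fun _ _ _ _ _ _ => hu3⟩⟩
      · obtain ⟨m, hm1, hm2⟩ := (hT j hj).exists_not_mem
        obtain ⟨u, hu1, hu2, -⟩ := hJ j hj (T j) (hT j hj) (0, m) (Nat.zero_le _) hm1 hm2
        exact ⟨u, fun _ => ⟨hu1, hu2, fun M a1 a2 a3 a4 a5 => absurd ⟨M, a1, a2, a3, a4, a5⟩ hM⟩⟩
    · exact ⟨fun _ => false, fun h => absurd h hj⟩
  choose u hu using hu
  obtain ⟨z, hz1, hz2⟩ := p.glue J s u
  refine ⟨z, hz1, fun j hj => ⟨?_, ?_, ?_⟩⟩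
  · exact p.loc j (u j) z (fun e he he' => (hz2 j hj e he he').symm) (hu j hj).1
  · intro e he he' hpos
    rw [hz2 j hj e he he']
    exact (hu j hj).2.1 e he he' hpos
  · intro M h1 h2 h3 h4 h5
    obtain ⟨e, he, he', hp, hue⟩ := (hu j hj).2.2 M h1 h2 h3 h4 h5
    exact ⟨e, he, he', hp, by rw [hz2 j hj e he he']; exact hue⟩

end Cond

/-- The closed set attached to a position. -/
def F (w : ℕ × ℕ) : Set (ℕ → Bool) := {z | ∀ e, pos e = w → z e = false}

/-- Points lying in finitely many `F (n, m)` for each `n`. -/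
def P2 : Set (ℕ → Bool) := {z | ∀ n, {m | z ∈ F (n, m)}.Finite}

end Pool.Agent.Scheepers
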