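import Pool.Agent.helper74.SchMain

set_option autoImplicit false

namespace Pool.Agent.Scheepers

namespace Cond

theorem R_loc (p : Cond) (d d' : ℕ) (u v : ℕ → Bool) (h : ∀ e, d ≤ e → e < d' → u e = v e)
    (hu : u ∈ p.R d d') : v ∈ p.R d d' := by
  intro j hj hj'
  refine p.loc j u v (fun e he he' => h e (hj.trans he) (lt_of_lt_of_le he' hj')) (hu j hj hj')

/-- Monotonicity of `R` along the order, between cut points. -/
theorem R_sub {q p : Cond} {M : ℕ}
    (hM : ∀ i, M ≤ q.a i → q.a i ∈ Set.range p.a ∧ q.A i ⊆ p.R (q.a i) (q.a (i + 1)))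
    {i i' : ℕ} (hi : M ≤ q.a i) : q.R (q.a i) (q.a i') ⊆ p.R (q.a i) (q.a i') := by
  intro z hz j hj hj'
  obtain ⟨s, hs1, hs2, hs3⟩ := q.exists_block hj
  have hss : M ≤ q.a s := hi.trans (q.mono.monotone hs1)
  obtain ⟨h1, h2⟩ := hM s hss
  have hlt : q.a s < q.a i' := by
    have : p.a j < p.a (j + 1) := p.mono (Nat.lt_succ_self j)
    omega
  have hs4 : s + 1 ≤ i' := q.mono.lt_iff_lt.1 hlt
  have hs5 : q.a (s + 1) ≤ q.a i' := q.mono.monotone hs4
  have h3 : z ∈ q.A s := hz s (q.mono.monotone hs1) hs5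
  refine h2 h3 j hs2 ?_
  have h4 : M ≤ q.a (s + 1) := hss.trans (q.mono.monotone (Nat.le_succ s))
  obtain ⟨⟨m, hm⟩, -⟩ := hM (s + 1) h4
  rw [← hm] at hs3 ⊢
  exact p.mono.monotone (p.mono.lt_iff_lt.1 hs3)

theorem le_refl (p : Cond) : p.le p :=
  ⟨0, fun i _ => ⟨⟨i, rfl⟩, fun z hz j hj hj' => by
    have h1 : i ≤ j := p.mono.le_iff_le.1 hj
    have h2 : j + 1 ≤ i + 1 := p.mono.le_iff_le.1 hj'
    have : j = i := by omega
    rw [this]; exact hz⟩⟩

theorem le_trans {r q p : Cond} (h1 : r.le q) (h2 : q.le p) : r.le p := by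
  obtain ⟨M1, hM1⟩ := h1
  obtain ⟨M2, hM2⟩ := h2
  refine ⟨max M1 M2, fun i hi => ?_⟩
  have hi1 : M1 ≤ r.a i := (le_max_left _ _).trans hi
  have hi2 : M2 ≤ r.a i := (le_max_right _ _).trans hi
  obtain ⟨⟨s, hs⟩, h3⟩ := hM1 i hi1
  obtain ⟨⟨s', hs'⟩, -⟩ := hM1 (i + 1) (hi1.trans (r.mono.monotone (Nat.le_succ i)))
  constructor
  · rw [← hs]
    exact (hM2 s (by rw [hs]; exact hi2)).1
  · refine h3.trans ?_
    rw [← hs, ← hs']
    exact R_sub hM2 (by rw [hs]; exact hi2)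

theorem star_sub {q p : Cond} (h : q.le p) : q.star ⊆ p.star := by
  obtain ⟨M, hM⟩ := h
  rintro z ⟨I, hI⟩
  -- a late cut point
  let i0 := max I M
  have hi0 : M ≤ q.a i0 := (le_max_right I M).trans (q.mono.id_le i0)
  refine ⟨q.a i0, fun j hj => ?_⟩
  have hj1 : q.a i0 ≤ p.a j := hj.trans (p.mono.id_le j)
  obtain ⟨s, hs1, hs2, hs3⟩ := q.exists_block hj1
  have hss : M ≤ q.a s := hi0.trans (q.mono.monotone hs1)
  obtain ⟨h1, h2⟩ := hM s hss
  refine h2 (hI s ((le_max_left I M).trans hs1)) j hs2 ?_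
  have h4 : M ≤ q.a (s + 1) := hss.trans (q.mono.monotone (Nat.le_succ s))
  obtain ⟨⟨m, hm⟩, -⟩ := hM (s + 1) h4
  rw [← hm] at hs3 ⊢
  exact p.mono.monotone (p.mono.lt_iff_lt.1 hs3)

/-- Products of large sets are large. -/
theorem large_R (p : Cond) (N : ℕ) {J J' : ℕ} (hJJ' : J < J')
    (hL : ∀ j, J ≤ j → Large N (p.A j) (p.a j) (p.a (j + 1))) :
    Large N (p.R (p.a J) (p.a J')) (p.a J) (p.a J') := by
  intro t ht w h1 h2 hw
  obtain ⟨z, -, hz⟩ := p.build N J hL (fun _ => t) (fun _ _ => ht) (fun _ => w) (fun _ => false)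
  refine ⟨z, ?_, ?_, ?_⟩
  · intro j hj _
    exact (hz j (p.mono.le_iff_le.1 hj)).1
  · intro e he _ hpos
    obtain ⟨j, hj1, hj2, hj3⟩ := p.exists_block he
    exact (hz j hj1).2.1 e hj2 hj3 hpos
  · obtain ⟨e, he1, he2, he3, he4⟩ := (hz J le_rfl).2.2 N le_rfl h1 h2 hw (hL J le_rfl)
    exact ⟨e, he1, lt_of_lt_of_le he2 (p.mono.monotone hJJ'), he3, he4⟩

/-- The fusion step. -/
theorem fusion (p : Cond) (W : ℕ → ℕ → Set (ℕ → Bool)) (b : ℕ → ℕ → ℕ)
    (hW : ∀ n k, Supp (b n k) (W n k))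
    (hconv : ∀ n, ∀ z ∈ p.star, z ∈ P2 → ∃ k0, ∀ k, k0 ≤ k → z ∉ W n k)
    (c : ℕ → (ℕ → Bool)) (hc : ∀ i n, ∃ k0, ∀ k, k0 ≤ k → c i ∉ W n k) :
    ∃ q : Cond, q.le p ∧ ∃ κ : ℕ → ℕ,
      (∀ z ∈ q.star, ∃ n0, ∀ n, n0 ≤ n → z ∉ W n (κ n)) ∧
      ∀ i, ∃ n0, ∀ n, n0 ≤ n → c i ∉ W n (κ n) := by
  classical
  -- one step
  have hstep : ∀ i J : ℕ, ∃ kJ : ℕ × ℕ,
      (∀ j, J ≤ j → Large (2 * i) (p.A j) (p.a j) (p.a (j + 1))) →
      (J < kJ.2 ∧ (∀ j, kJ.2 ≤ j → Large (2 * (i + 1)) (p.A j) (p.a j) (p.a (j + 1))) ∧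
        Large i (p.blk (W i kJ.1) J kJ.2) (p.a J) (p.a kJ.2) ∧ ∀ i', i' ≤ i → c i' ∉ W i kJ.1) := by
    intro i J
    by_cases hJ : ∀ j, J ≤ j → Large (2 * i) (p.A j) (p.a j) (p.a (j + 1))
    · obtain ⟨k0, hk0⟩ := p.main i J hJ (W i) (b i) (hW i) (hconv i)
      choose g hg using fun i' => hc i' i
      let k := max k0 ((Finset.range (i + 1)).sup g)
      obtain ⟨J1, hJ1⟩ := p.large (2 * (i + 1))
      obtain ⟨l, hl1, hl2⟩ := hk0 k (le_max_left _ _) (max (J + 1) J1)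
      refine ⟨(k, l), fun _ => ⟨(le_max_left _ _).trans hl1, fun j hj =>
        hJ1 j (((le_max_right _ _).trans hl1).trans hj), hl2, fun i' hi' => ?_⟩⟩
      refine hg i' k (?_ : g i' ≤ k)
      exact (Finset.le_sup (f := g) (Finset.mem_range.2 (Nat.lt_succ_of_le hi'))).trans
        (le_max_right _ _)
    · exact ⟨(0, 0), fun h => absurd h hJ⟩
  choose G hG using hstep
  obtain ⟨J0, hJ0⟩ := p.large 0
  let S : ℕ → ℕ := fun i => Nat.rec J0 (fun i J => (G i J).2) i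
  have hS0 : S 0 = J0 := rfl
  have hSs : ∀ i, S (i + 1) = (G i (S i)).2 := fun i => rfl
  have hSL : ∀ i, ∀ j, S i ≤ j → Large (2 * i) (p.A j) (p.a j) (p.a (j + 1)) := by
    intro i
    induction i with
    | zero => intro j hj; exact hJ0 j hj
    | succ i ih =>
      intro j hj
      exact (hG i (S i) ih).2.1 j hj
  have hSlt : ∀ i, S i < S (i + 1) := fun i => (hG i (S i) (hSL i)).1
  have hSmono : StrictMono S := strictMono_nat_of_lt_succ hSlt
  let κ : ℕ → ℕ := fun i => (G i (S i)).1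
  let q : Cond :=
    { a := fun i => p.a (S i)
      A := fun i => p.blk (W i (κ i)) (S i) (S (i + 1))
      mono := p.mono.comp hSmono
      loc := by
        rintro i u v huv ⟨hu1, hu2⟩
        refine ⟨fun j hj hj' => p.loc j u v (fun e he he' => huv e ?_ ?_) (hu1 j hj hj'), ?_⟩
        · exact (p.mono.monotone hj).trans he
        · exact lt_of_lt_of_le he' (p.mono.monotone hj')
        · intro v' hv'
          refine hu2 v' (fun e he he' => ?_)
          rw [hv' e he he', huv e he he']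
      large := fun N => ⟨N, fun j hj => ((hG j (S j) (hSL j)).2.2.1).mono hj⟩ }
  refine ⟨q, ⟨0, fun i _ => ⟨⟨S i, rfl⟩, ?_⟩⟩, κ, ?_, ?_⟩
  · rintro z ⟨hz, -⟩ j hj hj'
    exact hz j (p.mono.le_iff_le.1 hj) (p.mono.le_iff_le.1 hj')
  · rintro z ⟨I, hI⟩
    exact ⟨I, fun n hn => (hI n hn).2 z (fun _ _ _ => rfl)⟩
  · intro i
    exact ⟨i, fun n hn => (hG n (S n) (hSL n)).2.2.2 i hn⟩

/-- Lower bounds of decreasing sequences. -/
theorem exists_lower (p : ℕ → Cond) (hp : ∀ n, (p (n + 1)).le (p n)) :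
    ∃ q : Cond, ∀ n, q.le (p n) := by
  classical
  have hle : ∀ n m, n ≤ m → (p m).le (p n) := by
    intro n m hnm
    induction m, hnm using Nat.le_induction with
    | base => exact le_refl _
    | succ m _ ih => exact le_trans (hp m) ih
  -- thresholds
  have hthr : ∀ m n, ∃ M, n ≤ m → ∀ i, M ≤ (p m).a i →
      (p m).a i ∈ Set.range (p n).a ∧ (p m).A i ⊆ (p n).R ((p m).a i) ((p m).a (i + 1)) := by
    intro m n
    by_cases h : n ≤ m
    · obtain ⟨M, hM⟩ := hle n m h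
      exact ⟨M, fun _ => hM⟩
    · exact ⟨0, fun h' => absurd h' h⟩
  choose Th hTh using hthr
  have hlarge : ∀ m, ∃ J, ∀ j, J ≤ j → Large m ((p m).A j) ((p m).a j) ((p m).a (j + 1)) :=
    fun m => (p m).large m
  choose La hLa using hlarge
  -- bound needed at stage `m`
  let Bd : ℕ → ℕ := fun m => max (La m) ((Finset.range (m + 1)).sup (Th m))
  have hBd1 : ∀ m, La m ≤ Bd m := fun m => le_max_left _ _
  have hBd2 : ∀ m n, n ≤ m → Th m n ≤ Bd m := fun m n h =>
    (Finset.le_sup (f := Th m) (Finset.mem_range.2 (Nat.lt_succ_of_le h))).trans (le_max_right _ _)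
  -- indices `s i` in `p i`
  let s : ℕ → ℕ := fun i => Nat.rec (Bd 0) (fun i si => (p i).a si + 1 + Bd (i + 1)) i
  let d : ℕ → ℕ := fun i => (p i).a (s i)
  have hs0 : s 0 = Bd 0 := rfl
  have hss : ∀ i, s (i + 1) = d i + 1 + Bd (i + 1) := fun i => rfl
  have hsB : ∀ i, Bd i ≤ s i := by
    intro i
    cases i with
    | zero => exact le_of_eq hs0.symm
    | succ i => rw [hss]; omega
  have hdB : ∀ i, Bd i ≤ d i := fun i => (hsB i).trans ((p i).mono.id_le (s i))
  have hdlt : ∀ i, d i < d (i + 1) := by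
    intro i
    have h1 : s (i + 1) ≤ d (i + 1) := (p (i + 1)).mono.id_le (s (i + 1))
    have h2 := hss i
    omega
  have hdmono : StrictMono d := strictMono_nat_of_lt_succ hdlt
  -- `d (i+1)` is a cut point of `p i`
  have hcut : ∀ i, ∃ s', d (i + 1) = (p i).a s' := by
    intro i
    obtain ⟨⟨s', hs'⟩, -⟩ := hTh (i + 1) i (Nat.le_succ i) (s (i + 1))
      ((hBd2 (i + 1) i (Nat.le_succ i)).trans (hdB (i + 1)))
    exact ⟨s', hs'.symm⟩
  choose s' hs' using hcut
  have hss' : ∀ i, s i < s' i := by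
    intro i
    have h1 := hdlt i
    rw [hs' i] at h1
    exact (p i).mono.lt_iff_lt.1 h1
  let q : Cond :=
    { a := d
      A := fun i => (p i).R (d i) (d (i + 1))
      mono := hdmono
      loc := fun i u v huv hu => (p i).R_loc _ _ u v huv hu
      large := fun N => ⟨N, fun i hi => by
        refine Large.mono ?_ hi
        have h1 : (p i).R (d i) (d (i + 1)) = (p i).R ((p i).a (s i)) ((p i).a (s' i)) := by
          rw [← hs' i]
        have h2 : Large i ((p i).R ((p i).a (s i)) ((p i).a (s' i))) ((p i).a (s i))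
            ((p i).a (s' i)) :=
          (p i).large_R i (hss' i) (fun j hj => hLa i j ((hBd1 i).trans ((hsB i).trans hj)))
        have h3 : d (i + 1) = (p i).a (s' i) := hs' i
        show Large i ((p i).R (d i) (d (i + 1))) (d i) (d (i + 1))
        rw [h1, h3]
        exact h2⟩ }
  refine ⟨q, fun n => ⟨d n, fun i hi => ?_⟩⟩
  have hni : n ≤ i := hdmono.le_iff_le.1 hi
  have hTi : Th i n ≤ (p i).a (s i) := (hBd2 i n hni).trans (hdB i)
  have hM := hTh i n hni
  constructor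
  · exact (hM (s i) hTi).1
  · show (p i).R (d i) (d (i + 1)) ⊆ (p n).R (d i) (d (i + 1))
    rw [hs' i]
    exact R_sub hM hTi

/-- Lower bounds of countable chains. -/
theorem exists_lower_chain {ι : Type*} [Countable ι] [Nonempty ι] (p : ι → Cond)
    (hp : ∀ i j, (p i).le (p j) ∨ (p j).le (p i)) : ∃ q : Cond, ∀ i, q.le (p i) := by
  classical
  obtain ⟨g, hg⟩ := exists_surjective_nat ι
  -- running minimum
  let m : ℕ → ι := fun n => Nat.rec (g 0)
    (fun n i => if (p i).le (p (g (n + 1))) then i else g (n + 1)) n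
  have hm : ∀ n, m (n + 1) = if (p (m n)).le (p (g (n + 1))) then m n else g (n + 1) := fun n => rfl
  have h1 : ∀ n, (p (m (n + 1))).le (p (m n)) ∧ (p (m (n + 1))).le (p (g (n + 1))) := by
    intro n
    rw [hm]
    split_ifs with h
    · exact ⟨le_refl _, h⟩
    · exact ⟨(hp (m n) (g (n + 1))).resolve_left h, le_refl _⟩
  obtain ⟨q, hq⟩ := exists_lower (fun n => p (m n)) (fun n => (h1 n).1)
  refine ⟨q, fun i => ?_⟩
  obtain ⟨n, rfl⟩ := hg i
  cases n with
  | zero => exact hq 0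
  | succ n => exact le_trans (hq (n + 1)) (h1 n).2

/-- A trivial condition exists. -/
theorem nonempty : Nonempty Cond := by
  classical
  -- a block beyond `l` containing all positions with coordinates at most `N`
  have hblock : ∀ N l : ℕ, ∃ r, l < r ∧ ∀ w : ℕ × ℕ, w.1 ≤ N → w.2 ≤ N →
      ∃ e, l ≤ e ∧ e < r ∧ pos e = w := by
    intro N l
    choose g hg1 hg2 using fun w => exists_pos_ge w l
    let Q : Finset (ℕ × ℕ) := Finset.range (N + 1) ×ˢ Finset.range (N + 1)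
    refine ⟨max (l + 1) (Q.sup g + 1), lt_of_lt_of_le (Nat.lt_succ_self l) (le_max_left _ _), ?_⟩
    intro w h1 h2
    refine ⟨g w, hg1 w, ?_, hg2 w⟩
    have hw : w ∈ Q := Finset.mem_product.2 ⟨Finset.mem_range.2 (Nat.lt_succ_of_le h1),
      Finset.mem_range.2 (Nat.lt_succ_of_le h2)⟩
    have := Finset.le_sup (f := g) hw
    exact lt_of_lt_of_le (Nat.lt_succ_of_le this) (le_max_right _ _)
  choose r hr1 hr2 using hblock
  let a : ℕ → ℕ := fun i => Nat.rec 0 (fun i ai => r i ai) i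
  have ha : ∀ i, a (i + 1) = r i (a i) := fun i => rfl
  have hmono : StrictMono a := strictMono_nat_of_lt_succ (fun i => by
    rw [ha]; exact hr1 i (a i))
  have hlarge : ∀ N j, N ≤ j → Large N Set.univ (a j) (a (j + 1)) := by
    intro N j hj t _ w h1 h2 hw
    refine ⟨fun e => decide (pos e = w), Set.mem_univ _, ?_, ?_⟩
    · intro e _ _ hpos
      refine decide_eq_false ?_
      intro h
      exact hw (h ▸ hpos)
    · obtain ⟨e, he1, he2, he3⟩ := hr2 j (a j) w (h1.trans hj) (h2.trans hj)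
      exact ⟨e, he1, he2, he3, decide_eq_true he3⟩
  exact ⟨⟨a, fun _ => Set.univ, hmono, fun _ _ _ _ _ => Set.mem_univ _,
    fun N => ⟨N, fun j hj => hlarge N j hj⟩⟩⟩

/-- Points of `star p` vanishing exactly on the graph of `h`. -/
theorem exists_point (p : Cond) (h : ℕ → ℕ) :
    ∃ z ∈ p.star, z ∈ P2 ∧ ∀ n, z ∈ F (n, h n) := by
  classical
  obtain ⟨J, hJ⟩ := p.large 1
  let t : Set (ℕ × ℕ) := {w | w.2 = h w.1}
  have ht : Val 1 t := by
    intro n s hs
    rw [Finset.card_le_one]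
    intro a ha b hb
    have h1 : a = h n := hs a ha
    have h2 : b = h n := hs b hb
    rw [h1, h2]
  obtain ⟨z, hz1, hz2⟩ := p.build 1 J hJ (fun _ => t) (fun _ _ => ht) pos (fun _ => false)
  refine ⟨z, ⟨J, fun j hj => (hz2 j hj).1⟩, ?_, ?_⟩
  · refine mem_P2_of ht ?_
    intro w hw
    let M := max 1 (max w.1 w.2)
    obtain ⟨J1, hJ1⟩ := p.large M
    obtain ⟨j, hj1, hj2⟩ := exists_pos_ge w (max J J1)
    obtain ⟨e, he1, he2, he3, he4⟩ := (hz2 j ((le_max_left _ _).trans hj1)).2.2 M (le_max_left _ _)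
      (by rw [hj2]; exact (le_max_left _ _).trans (le_max_right _ _))
      (by rw [hj2]; exact (le_max_right _ _).trans (le_max_right _ _))
      (by rw [hj2]; exact hw) (hJ1 j ((le_max_right _ _).trans hj1))
    exact ⟨e, by rw [he3, hj2], he4⟩
  · intro n e he
    by_cases hlt : e < p.a J
    · exact hz1 e hlt
    · push Not at hlt
      obtain ⟨j, hj1, hj2, hj3⟩ := p.exists_block hlt
      refine (hz2 j hj1).2.1 e hj2 hj3 ?_
      rw [he]
      exact rfl

end Cond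

end Pool.Agent.Scheepers
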