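import Pool.Agent.helper74.SchRec

set_option autoImplicit false

namespace Pool.Agent.Scheepers

open Filter Topology

theorem Supp.compl {b : ℕ} {W : Set (ℕ → Bool)} (h : Supp b W) : Supp b Wᶜ :=
  fun u v huv hu hv => hu (h v u (fun e he => (huv e he).symm) hv)

theorem isOpen_cyl (z : ℕ → Bool) (b : ℕ) : IsOpen {v : ℕ → Bool | ∀ e, e < b → v e = z e} := by
  have : {v : ℕ → Bool | ∀ e, e < b → v e = z e} =
      ((Finset.range b : Finset ℕ) : Set ℕ).pi (fun e => {z e}) := by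
    ext v
    simp [Set.mem_pi]
  rw [this]
  exact isOpen_set_pi (Finset.finite_toSet _) (fun e _ => isOpen_discrete _)

theorem Supp.isOpen {b : ℕ} {W : Set (ℕ → Bool)} (h : Supp b W) : IsOpen W := by
  rw [isOpen_iff_forall_mem_open]
  intro z hz
  refine ⟨{v | ∀ e, e < b → v e = z e}, ?_, isOpen_cyl z b, fun e _ => rfl⟩
  intro v hv
  exact h z v (fun e he => (hv e he).symm) hz

theorem Supp.isClosed {b : ℕ} {W : Set (ℕ → Bool)} (h : Supp b W) : IsClosed W :=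
  isOpen_compl_iff.1 h.compl.isOpen

theorem exists_cyl {V : Set (ℕ → Bool)} (hV : IsOpen V) {z : ℕ → Bool} (hz : z ∈ V) :
    ∃ j, ∀ v : ℕ → Bool, (∀ e, e < j → v e = z e) → v ∈ V := by
  rw [isOpen_pi_iff] at hV
  obtain ⟨I, u, hu, hsub⟩ := hV z hz
  refine ⟨I.sup id + 1, fun v hv => hsub ?_⟩
  intro e he
  have h1 : e ≤ I.sup id := Finset.le_sup (f := id) he
  rw [hv e (Nat.lt_succ_of_le h1)]
  exact (hu e he).2

/-- The selection property for sets of finite support, pulled back along `φ`. -/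
def Sel {Y : Type*} (φ : Y → (ℕ → Bool)) : Prop :=
  ∀ (W : ℕ → ℕ → Set (ℕ → Bool)) (b : ℕ → ℕ → ℕ), (∀ n k, Supp (b n k) (W n k)) →
    (∀ n, ∀ y, ∃ k0, ∀ k, k0 ≤ k → φ y ∉ W n k) →
    ∃ κ : ℕ → ℕ, ∀ y, ∃ n0, ∀ n, n0 ≤ n → φ y ∉ W n (κ n)

theorem hurewicz {Y : Type*} [TopologicalSpace Y] {φ : Y → (ℕ → Bool)} (hφ : IsInducing φ)
    (hsel : Sel φ) (O : ℕ → ℕ → Set Y) (hO : ∀ n i, IsOpen (O n i))
    (hmono : ∀ n, Monotone (O n)) (hcov : ∀ n y, ∃ i, y ∈ O n i) :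
    ∃ i : ℕ → ℕ, ∀ y, ∃ n0, ∀ n, n0 ≤ n → y ∈ O n (i n) := by
  classical
  choose Q hQ1 hQ2 using fun n i => hφ.isOpen_iff.1 (hO n i)
  let U : ℕ → ℕ → Set (ℕ → Bool) := fun n i => ⋃ i' ∈ Set.Iic i, Q n i'
  have hUopen : ∀ n i, IsOpen (U n i) := fun n i => isOpen_biUnion (fun i' _ => hQ1 n i')
  have hUmono : ∀ n, Monotone (U n) := by
    intro n i j hij
    exact Set.biUnion_subset_biUnion_left (Set.Iic_subset_Iic.2 hij)
  have hUpre : ∀ n i y, φ y ∈ U n i → y ∈ O n i := by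
    intro n i y hy
    obtain ⟨i', hi', hy'⟩ := Set.mem_iUnion₂.1 hy
    have h1 : y ∈ φ ⁻¹' Q n i' := hy'
    rw [hQ2] at h1
    exact hmono n hi' h1
  let V : ℕ → Set (ℕ → Bool) := fun n => ⋃ i, U n i
  have hVopen : ∀ n, IsOpen (V n) := fun n => isOpen_iUnion (fun i => hUopen n i)
  have hV : ∀ n y, φ y ∈ V n := by
    intro n y
    obtain ⟨i, hi⟩ := hcov n y
    refine Set.mem_iUnion.2 ⟨i, Set.mem_iUnion₂.2 ⟨i, Set.mem_Iic.2 le_rfl, ?_⟩⟩
    have h1 : y ∈ φ ⁻¹' Q n i := by rw [hQ2]; exact hi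
    exact h1
  let D : ℕ → ℕ → Set (ℕ → Bool) := fun n j => {z | ∀ v : ℕ → Bool, (∀ e, e < j → v e = z e) → v ∈ V n}
  have hD : ∀ n j, Supp j (D n j) := by
    intro n j u v huv hu w hw
    exact hu w (fun e he => (hw e he).trans (huv e he).symm)
  obtain ⟨κ, hκ⟩ := hsel (fun n j => (D n j)ᶜ) (fun _ j => j) (fun n j => (hD n j).compl) (by
    intro n y
    obtain ⟨j, hj⟩ := exists_cyl (hVopen n) (hV n y)
    refine ⟨j, fun k hk => ?_⟩
    intro hnot
    exact hnot (fun v hv => hj v (fun e he => hv e (lt_of_lt_of_le he hk))))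
  have hcomp : ∀ n, ∃ i, D n (κ n) ⊆ U n i := by
    intro n
    refine ((hD n (κ n)).isClosed.isCompact).elim_directed_cover (U n) (hUopen n) ?_ ?_
    · intro z hz
      exact hz z (fun _ _ => rfl)
    · exact (hUmono n).directed_le
  choose i hi using hcomp
  refine ⟨i, fun y => ?_⟩
  obtain ⟨n0, hn0⟩ := hκ y
  refine ⟨n0, fun n hn => hUpre n (i n) y (hi n ?_)⟩
  have := hn0 n hn
  exact not_not.1 this

theorem cp_select {Y : Type*} [TopologicalSpace Y] {φ : Y → (ℕ → Bool)} (hφ : IsInducing φ)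
    (hsel : Sel φ) (A : ℕ → Set C(Y, ℝ))
    (hA : ∀ n, (A n).Infinite ∧ (A n).Countable ∧ (0 : C(Y, ℝ)) ∉ A n ∧
      ∀ x : Y, ∀ ε : ℝ, 0 < ε → {f ∈ A n | ε ≤ |f x|}.Finite) :
    ∃ g : ℕ → C(Y, ℝ), (∀ n, g n ∈ A n) ∧ (Set.range g).Infinite ∧
      ∀ x : Y, ∀ ε : ℝ, 0 < ε → {f ∈ Set.range g | ε ≤ |f x|}.Finite := by
  classical
  -- an injective sequence in each `A n`
  let f : ∀ n, ℕ ↪ A n := fun n => Set.Infinite.natEmbedding (A n) (hA n).1
  have hf : ∀ n y ε, 0 < ε → ∃ k0, ∀ k, k0 ≤ k → |((f n k : A n) : C(Y, ℝ)) y| < ε := by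
    intro n y ε hε
    have hfin : {k : ℕ | ε ≤ |((f n k : A n) : C(Y, ℝ)) y|}.Finite := by
      have h1 := (hA n).2.2.2 y ε hε
      refine Set.Finite.of_finite_image (f := fun k => ((f n k : A n) : C(Y, ℝ))) (h1.subset ?_) ?_
      · rintro _ ⟨k, hk, rfl⟩
        exact ⟨(f n k).2, hk⟩
      · intro k _ k' _ hkk'
        exact (f n).injective (Subtype.ext hkk')
    obtain ⟨k0, hk0⟩ := hfin.bddAbove
    refine ⟨k0 + 1, fun k hk => ?_⟩
    by_contra hcon
    push Not at hcon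
    have : k ≤ k0 := hk0 hcon
    omega
  -- open sets `|f n k| > 2^{-n-1}`
  have hop : ∀ n k, ∃ V : Set (ℕ → Bool), IsOpen V ∧
      φ ⁻¹' V = {y | (1 / 2 : ℝ) ^ (n + 1) < |((f n k : A n) : C(Y, ℝ)) y|} := by
    intro n k
    refine hφ.isOpen_iff.1 ?_
    exact isOpen_lt continuous_const (((f n k : A n) : C(Y, ℝ)).continuous.abs)
  choose V hV1 hV2 using hop
  let D : ℕ → ℕ → ℕ → Set (ℕ → Bool) := fun n k i =>
    {z | ∀ v : ℕ → Bool, (∀ e, e < i → v e = z e) → v ∈ V n k}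
  have hD : ∀ n k i, Supp i (D n k i) := by
    intro n k i u v huv hu w hw
    exact hu w (fun e he => (hw e he).trans (huv e he).symm)
  let O' : ℕ → ℕ → ℕ → Set Y := fun n k i =>
    {y | |((f n k : A n) : C(Y, ℝ)) y| < (1 / 2 : ℝ) ^ n} ∪ φ ⁻¹' (D n k i)
  let O : ℕ → ℕ → Set Y := fun m i => O' m.unpair.1 m.unpair.2 i
  have hOO : ∀ n k i, O (Nat.pair n k) i = O' n k i := by
    intro n k i
    show O' (Nat.pair n k).unpair.1 (Nat.pair n k).unpair.2 i = O' n k i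
    rw [Nat.unpair_pair]
  obtain ⟨i, hi⟩ := hurewicz hφ hsel O (by
    intro m i
    refine IsOpen.union ?_ ?_
    · exact isOpen_lt (((f m.unpair.1 m.unpair.2 : A m.unpair.1) : C(Y, ℝ)).continuous.abs)
        continuous_const
    · exact (hD _ _ _).isOpen.preimage hφ.continuous) (by
    intro m i j hij
    refine Set.union_subset_union_right _ (Set.preimage_mono ?_)
    intro z hz v hv
    exact hz v (fun e he => hv e (lt_of_lt_of_le he hij))) (by
    intro m y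
    by_cases hy : |((f m.unpair.1 m.unpair.2 : A m.unpair.1) : C(Y, ℝ)) y| <
        (1 / 2 : ℝ) ^ m.unpair.1
    · exact ⟨0, Or.inl hy⟩
    · push Not at hy
      have h1 : y ∈ φ ⁻¹' V m.unpair.1 m.unpair.2 := by
        rw [hV2]
        refine lt_of_lt_of_le ?_ hy
        have h2 : (0 : ℝ) < (1 / 2 : ℝ) ^ m.unpair.1 := by positivity
        rw [pow_succ]
        linarith
      obtain ⟨j, hj⟩ := exists_cyl (hV1 _ _) h1
      exact ⟨j, Or.inr hj⟩)
  -- the final selection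
  obtain ⟨κ, hκ⟩ := hsel (fun n k => D n k (i (Nat.pair n k))) (fun n k => i (Nat.pair n k))
    (fun n k => hD _ _ _) (by
    intro n y
    obtain ⟨k0, hk0⟩ := hf n y ((1 / 2 : ℝ) ^ (n + 1)) (by positivity)
    refine ⟨k0, fun k hk hmem => ?_⟩
    have h1 : y ∈ φ ⁻¹' V n k := hmem (φ y) (fun _ _ => rfl)
    rw [hV2] at h1
    exact absurd (hk0 k hk) (not_lt.2 (le_of_lt h1)))
  let g : ℕ → C(Y, ℝ) := fun n => ((f n (κ n) : A n) : C(Y, ℝ))
  have hg : ∀ y, ∃ n0, ∀ n, n0 ≤ n → |g n y| < (1 / 2 : ℝ) ^ n := by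
    intro y
    obtain ⟨n1, hn1⟩ := hi y
    obtain ⟨n2, hn2⟩ := hκ y
    refine ⟨max n1 n2, fun n hn => ?_⟩
    have h1 : y ∈ O (Nat.pair n (κ n)) (i (Nat.pair n (κ n))) :=
      hn1 _ (((le_max_left _ _).trans hn).trans (Nat.left_le_pair _ _))
    have h2 := hn2 n ((le_max_right _ _).trans hn)
    rw [hOO] at h1
    rcases h1 with h1 | h1
    · exact h1
    · exact absurd h1 h2
  have hgsmall : ∀ y ε, 0 < ε → {n : ℕ | ε ≤ |g n y|}.Finite := by
    intro y ε hε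
    obtain ⟨n0, hn0⟩ := hg y
    obtain ⟨n1, hn1⟩ := exists_pow_lt_of_lt_one hε (by norm_num : (1 / 2 : ℝ) < 1)
    refine (Set.finite_lt_nat (max n0 n1)).subset ?_
    intro n hn
    by_contra hcon
    simp only [Set.mem_ofPred_eq, not_lt] at hcon hn
    have h1 := hn0 n ((le_max_left _ _).trans hcon)
    have h2 : (1 / 2 : ℝ) ^ n ≤ (1 / 2 : ℝ) ^ n1 :=
      pow_le_pow_of_le_one (by norm_num) (by norm_num) ((le_max_right _ _).trans hcon)
    linarith
  refine ⟨g, fun n => (f n (κ n)).2, ?_, ?_⟩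
  · intro hfin
    -- some value is taken infinitely often
    have h1 : ∃ φ0 ∈ Set.range g, {n | g n = φ0}.Infinite := by
      by_contra hcon
      push Not at hcon
      have h2 : (⋃ φ0 ∈ Set.range g, {n | g n = φ0}).Finite :=
        hfin.biUnion (fun φ0 h0 => by
          have := hcon φ0 h0
          exact this)
      refine Set.infinite_univ (α := ℕ) (h2.subset ?_)
      intro n _
      exact Set.mem_biUnion (Set.mem_range_self n) rfl
    obtain ⟨φ0, ⟨m, hm⟩, hinf⟩ := h1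
    have hne : φ0 ≠ 0 := by
      intro h0
      apply (hA m).2.2.1
      rw [← h0, ← hm]
      exact (f m (κ m)).2
    obtain ⟨y, hy⟩ : ∃ y, φ0 y ≠ 0 := by
      by_contra hcon
      push Not at hcon
      exact hne (ContinuousMap.ext hcon)
    have hpos : 0 < |φ0 y| := abs_pos.2 hy
    refine hinf ((hgsmall y |φ0 y| hpos).subset ?_)
    intro n hn
    simp only [Set.mem_ofPred_eq] at hn ⊢
    rw [hn]
  · intro y ε hε
    refine ((hgsmall y ε hε).image g).subset ?_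
    rintro _ ⟨⟨n, rfl⟩, hn⟩
    exact ⟨n, hn, rfl⟩

/-- A closed copy of Cantor space inside the irrationals. -/
theorem exists_cantor_irrational :
    ∃ f : (ℕ → Bool) → ℝ, Set.range f ⊆ {x : ℝ | Irrational x} ∧ Continuous f ∧
      Function.Injective f := by
  classical
  obtain ⟨q, hq⟩ := exists_surjective_nat ℚ
  let B : Set ℝ := ⋃ n : ℕ, Metric.ball ((q n : ℚ) : ℝ) ((1 / 2 : ℝ) ^ n)
  have hBopen : IsOpen B := isOpen_iUnion (fun n => Metric.isOpen_ball)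
  have hBvol : MeasureTheory.volume B < ⊤ := by
    refine lt_of_le_of_lt (MeasureTheory.measure_iUnion_le _) ?_
    have h1 : ∀ n : ℕ, MeasureTheory.volume (Metric.ball ((q n : ℚ) : ℝ) ((1 / 2 : ℝ) ^ n)) =
        ENNReal.ofReal (2 * (1 / 2 : ℝ) ^ n) := fun n => Real.volume_ball _ _
    simp_rw [h1]
    rw [← ENNReal.ofReal_tsum_of_nonneg]
    · exact ENNReal.ofReal_lt_top
    · intro n; positivity
    · exact (summable_geometric_of_lt_one (by norm_num) (by norm_num)).mul_left 2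
  have hunc : ¬ (Bᶜ).Countable := by
    intro hc
    have h1 : MeasureTheory.volume Bᶜ = 0 := hc.measure_zero _
    have h2 : MeasureTheory.volume (Set.univ : Set ℝ) ≤
        MeasureTheory.volume B + MeasureTheory.volume Bᶜ := by
      rw [← Set.union_compl_self B]
      exact MeasureTheory.measure_union_le _ _
    rw [h1, add_zero, Real.volume_univ] at h2
    exact absurd hBvol (not_lt.2 h2)
  obtain ⟨f, hf1, hf2, hf3⟩ := IsClosed.exists_nat_bool_injection_of_not_countable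
    hBopen.isClosed_compl hunc
  refine ⟨f, ?_, hf2, hf3⟩
  rintro _ ⟨z, rfl⟩
  have h1 : f z ∈ Bᶜ := hf1 (Set.mem_range_self z)
  rintro ⟨r, hr⟩
  apply h1
  obtain ⟨n, hn⟩ := hq r
  refine Set.mem_iUnion.2 ⟨n, ?_⟩
  rw [hn, hr]
  exact Metric.mem_ball_self (by positivity)

theorem isClosed_F (w : ℕ × ℕ) : IsClosed (F w) := by
  have : F w = ⋂ e ∈ {e | pos e = w}, {z : ℕ → Bool | z e = false} := by
    ext z
    simp [F]
  rw [this]
  refine isClosed_biInter (fun e _ => ?_)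
  exact isClosed_eq (continuous_apply e) continuous_const

/-- From a set in Cantor space to a set of irrationals. -/
theorem transfer (X : Set (ℕ → Bool)) (hX : X ⊆ P2)
    (hX2 : ∀ h : ℕ → ℕ, ∃ x ∈ X, ∀ n, x ∈ F (n, h n))
    (hX3 : ∀ (W : ℕ → ℕ → Set (ℕ → Bool)) (b : ℕ → ℕ → ℕ), (∀ n k, Supp (b n k) (W n k)) →
        (∀ n, ∀ x ∈ X, ∃ k0, ∀ k, k0 ≤ k → x ∉ W n k) →
        ∃ κ : ℕ → ℕ, ∀ x ∈ X, ∃ n0, ∀ n, n0 ≤ n → x ∉ W n (κ n)) :
    ∃ Y : Set ℝ, Y ⊆ {x : ℝ | Irrational x} ∧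
      (∀ A : ℕ → Set C(↥Y, ℝ),
        (∀ n, (A n).Infinite ∧ (A n).Countable ∧ (0 : C(↥Y, ℝ)) ∉ A n ∧
          ∀ x : ↥Y, ∀ ε : ℝ, 0 < ε → {f ∈ A n | ε ≤ |f x|}.Finite) →
        ∃ g : ℕ → C(↥Y, ℝ), (∀ n, g n ∈ A n) ∧ (Set.range g).Infinite ∧
          ∀ x : ↥Y, ∀ ε : ℝ, 0 < ε → {f ∈ Set.range g | ε ≤ |f x|}.Finite) ∧
      ∃ 𝒰 : ℕ → Set (Set ↥Y),
        (∀ n, (𝒰 n).Infinite ∧ (∀ U ∈ 𝒰 n, IsOpen U) ∧ (Set.univ : Set ↥Y) ∉ 𝒰 n ∧
          ∀ x : ↥Y, {U ∈ 𝒰 n | x ∉ U}.Finite) ∧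
        ∀ V : ℕ → Set ↥Y, (∀ n, V n ∈ 𝒰 n) → (⋃ n, V n) ≠ Set.univ := by
  classical
  obtain ⟨f, hf1, hf2, hf3⟩ := exists_cantor_irrational
  have hfemb : IsInducing f := (hf2.isClosedEmbedding hf3).isInducing
  let Y : Set ℝ := f '' X
  have hpre : ∀ y : ↥Y, ∃ x ∈ X, f x = y := fun y => y.2
  choose φ hφ1 hφ2 using hpre
  have hφ : IsInducing φ := by
    have h1 : IsInducing (f ∘ φ) := by
      have : f ∘ φ = (Subtype.val : ↥Y → ℝ) := by
        funext y
        exact hφ2 y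
      rw [this]
      exact IsInducing.subtypeVal
    exact (hfemb.of_comp_iff).1 h1
  have hsurj : ∀ x ∈ X, ∃ y : ↥Y, φ y = x := by
    intro x hx
    refine ⟨⟨f x, ⟨x, hx, rfl⟩⟩, hf3 ?_⟩
    rw [hφ2]
  have hsel : Sel φ := by
    intro W b hW hconv
    obtain ⟨κ, hκ⟩ := hX3 W b hW (by
      intro n x hx
      obtain ⟨y, hy⟩ := hsurj x hx
      rw [← hy]
      exact hconv n y)
    exact ⟨κ, fun y => hκ (φ y) (hφ1 y)⟩
  refine ⟨Y, ?_, fun A hA => cp_select hφ hsel A hA, ?_⟩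
  · rintro _ ⟨x, _, rfl⟩
    exact hf1 (Set.mem_range_self x)
  · let U : ℕ → ℕ → Set ↥Y := fun n m => {y | φ y ∉ F (n, m)}
    have hne : ∀ n m, U n m ≠ Set.univ := by
      intro n m hcon
      obtain ⟨x, hx, hx'⟩ := hX2 (fun _ => m)
      obtain ⟨y, hy⟩ := hsurj x hx
      have : y ∈ U n m := by rw [hcon]; exact Set.mem_univ y
      apply this
      rw [hy]
      exact hx' n
    have hfin : ∀ n y, {m | y ∉ U n m}.Finite := by
      intro n y
      refine (hX (hφ1 y) n).subset ?_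
      intro m hm
      exact not_not.1 hm
    refine ⟨fun n => Set.range (U n), fun n => ⟨?_, ?_, ?_, ?_⟩, ?_⟩
    · intro hfinr
      have h1 : ∃ V ∈ Set.range (U n), {m | U n m = V}.Infinite := by
        by_contra hcon
        push Not at hcon
        have h2 : (⋃ V ∈ Set.range (U n), {m | U n m = V}).Finite :=
          hfinr.biUnion (fun V h0 => hcon V h0)
        refine Set.infinite_univ (α := ℕ) (h2.subset ?_)
        intro m _
        exact Set.mem_biUnion (Set.mem_range_self m) rfl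
      obtain ⟨V, ⟨m, hm⟩, hinf⟩ := h1
      obtain ⟨y, hy⟩ : ∃ y, y ∉ V := by
        by_contra hcon
        push Not at hcon
        apply hne n m
        rw [hm]
        exact Set.eq_univ_of_forall hcon
      refine hinf ((hfin n y).subset ?_)
      intro m' hm'
      simp only [Set.mem_ofPred_eq] at hm' ⊢
      rw [hm']
      exact hy
    · rintro _ ⟨m, rfl⟩
      exact ((isClosed_F (n, m)).isOpen_compl).preimage hφ.continuous
    · rintro ⟨m, hm⟩
      exact hne n m hm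
    · intro y
      refine ((hfin n y).image (U n)).subset ?_
      rintro _ ⟨⟨m, rfl⟩, hm⟩
      exact ⟨m, hm, rfl⟩
    · intro V hV hcon
      choose h hh using hV
      obtain ⟨x, hx, hx'⟩ := hX2 h
      obtain ⟨y, hy⟩ := hsurj x hx
      have h1 : y ∈ ⋃ n, V n := by rw [hcon]; exact Set.mem_univ y
      obtain ⟨n, hn⟩ := Set.mem_iUnion.1 h1
      rw [← hh n] at hn
      apply hn
      rw [hy]
      exact hx' n

end Pool.Agent.Scheepers
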